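import Pool.Agent.MNT.StmtsG

set_option autoImplicit false

namespace Pool.Agent.MNT.H49

open Polynomial NumberField Pool.Agent.MNT
open scoped Classical

theorem cnj (hb : BchStmt) (hext : UBT.Ext1Stmt) : CnjStmt := by
  intro m d hm
  refine ⟨d * d.factorial, ?_⟩
  intro K M _ _ _ _ _ hd f hf x y hx hy hy0 hN
  have hfin : FiniteDimensional K M := Module.Finite.of_restrictScalars_finite ℚ K M
  obtain ⟨θ, hθ⟩ := Field.exists_primitive_element K M
  have hθ0 : minpoly K θ ≠ 0 := minpoly.ne_zero (Algebra.IsIntegral.isIntegral θ)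
  obtain ⟨E, iE, iN, iA, hsp, hdeg⟩ := hext M ((minpoly K θ).map (algebraMap K M))
    ((Polynomial.map_ne_zero_iff (algebraMap K M).injective).mpr hθ0)
  let iK : Algebra K E := ((algebraMap M E).comp (algebraMap K M)).toAlgebra
  have hT : IsScalarTower K M E := IsScalarTower.of_algebraMap_eq' rfl
  rw [Polynomial.map_map, ← IsScalarTower.algebraMap_eq K M E] at hsp
  rw [Polynomial.natDegree_map] at hdeg
  have hall : ∀ s : M, ((minpoly K s).map (algebraMap K E)).Splits := by
    intro s
    refine IntermediateField.splits_of_mem_adjoin K M (S := {θ}) ?_ ?_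
    · intro t ht
      rw [Set.mem_singleton_iff] at ht
      subst ht
      exact ⟨Algebra.IsIntegral.isIntegral _, hsp⟩
    · rw [hθ]; exact IntermediateField.mem_top
  have hkey : ∀ x' : E, aeval x' (minpoly K x) = 0 → ∃ φ : M →ₐ[K] E, φ x = x' := fun x' hx' =>
    IntermediateField.exists_algHom_of_splits_of_aeval
      (fun s => ⟨Algebra.IsIntegral.isIntegral s, hall s⟩) hx'
  have hsep : (minpoly K x).Separable := (Algebra.IsSeparable.isSeparable K x)
  have hcard : Fintype.card ((minpoly K x).rootSet E) = (minpoly K x).natDegree :=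
    card_rootSet_eq_natDegree hsep (hall x)
  obtain ⟨R, hR⟩ : ∃ R : Finset E, R = ((minpoly K x).rootSet E).toFinset := ⟨_, rfl⟩
  have hRc : m ≤ R.card := by
    rw [hR, Set.toFinset_card, hcard]; exact hx
  obtain ⟨T, hTR, hTc⟩ := Finset.exists_subset_card_eq hRc
  obtain ⟨e⟩ : Nonempty (Fin m ≃ T) := ⟨(T.equivFinOfCardEq hTc).symm⟩
  have hroot : ∀ i, aeval ((e i : T) : E) (minpoly K x) = 0 := by
    intro i
    have h1 : ((e i : T) : E) ∈ R := hTR (e i).2
    rw [hR, Set.mem_toFinset] at h1
    exact ((mem_rootSet_of_ne (minpoly.ne_zero (Algebra.IsIntegral.isIntegral x))).mp h1)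
  choose φ hφ using fun i => hkey _ (hroot i)
  have hm0 : 0 < m := hm
  refine ⟨E, iE, iN, iK, φ ⟨0, hm0⟩, fun i => ((e i : T) : E), fun i => φ i y, ?_, ?_,
    ⟨⟨0, hm0⟩, (hφ _).symm, rfl⟩, ?_⟩
  · have h1 : Module.finrank ℚ M * Module.finrank M E = Module.finrank ℚ E :=
      Module.finrank_mul_finrank ℚ M E
    have h2 : Module.finrank K M ≤ d := by
      have h3 : Module.finrank ℚ K * Module.finrank K M = Module.finrank ℚ M :=
        Module.finrank_mul_finrank ℚ K M
      have h4 : 0 < Module.finrank ℚ K := Module.finrank_pos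
      calc Module.finrank K M ≤ Module.finrank ℚ K * Module.finrank K M :=
            Nat.le_mul_of_pos_left _ h4
        _ = Module.finrank ℚ M := h3
        _ ≤ d := hd
    rw [← h1]
    refine Nat.mul_le_mul hd (hdeg.trans (Nat.factorial_le ?_))
    exact (minpoly.natDegree_le θ).trans h2
  · intro i j hij
    exact e.injective (Subtype.ext hij)
  · intro i
    have hmap : (f.map (algebraMap K M)).map (φ i : M →+* E) = f.map (algebraMap K E) := by
      rw [Polynomial.map_map]
      congr 1
      exact (φ i).comp_algebraMap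
    refine ⟨?_, ?_, ?_⟩
    · show (φ i y) ^ 2 = (f.map (algebraMap K E)).eval ((e i : T) : E)
      rw [← map_pow, hy, ← hmap, ← hφ i]
      exact (Polynomial.eval_map_apply (φ i : M →+* E) x).symm
    · intro h0
      exact hy0 ((map_eq_zero (φ i : M →+* E)).mp h0)
    · obtain ⟨N, hN⟩ := hN
      refine ⟨N, ?_⟩
      have h1 := (hb M E (φ i : M →+* E) (f.map (algebraMap K M)) x y N
        (by rw [Polynomial.natDegree_map]; exact hf)).mp hN
      rw [hmap] at h1
      have h2 : (φ i : M →+* E) x = ((e i : T) : E) := hφ i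
      rw [h2] at h1
      exact h1

end Pool.Agent.MNT.H49
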